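import Pool.Agent.R284.RC.Stm

/-!
# RC-INF (piece of project RC, MP_ce24da_an): the optimal measure has bounded support
-/

set_option autoImplicit false
open MeasureTheory Set Filter Topology
open scoped ENNReal NNReal

namespace Pool.Agent.R452.RCINF

open Pool.Agent.R284.RC

theorem kr_zero_le {n : ℕ} (x y : E n) (c : ℝ) (hc : 0 < c) (h : c ≤ dist x y) :
    kr 0 x y ≤ - Real.log c := by
  unfold kr
  rw [if_pos rfl]
  have := Real.log_le_log hc h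
  linarith

theorem kr_pos_le {n : ℕ} (p : ℝ) (hp : 0 < p) (x y : E n) (c : ℝ) (hc : 0 < c)
    (h : c ≤ dist x y) : kr p x y ≤ c ^ (-p) := by
  unfold kr
  rw [if_neg hp.ne']
  exact Real.rpow_le_rpow_of_nonpos hc h (by linarith)

theorem kr_nonneg {n : ℕ} (p : ℝ) (hp : 0 < p) (x y : E n) : 0 ≤ kr p x y := by
  unfold kr
  rw [if_neg hp.ne']
  exact Real.rpow_nonneg dist_nonneg _

/-- the nested outer regions -/
def DD (n : ℕ) (R : ℝ) (j : ℕ) : Set (E n) := {x | R * (2 - (1 / 2 : ℝ) ^ j) < ‖x‖}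

theorem DD_meas (n : ℕ) (R : ℝ) (j : ℕ) : MeasurableSet (DD n R j) :=
  measurableSet_lt measurable_const measurable_norm

theorem DD_anti (n : ℕ) (R : ℝ) (hR : 0 ≤ R) : Antitone (DD n R) := by
  intro j k hjk x hx
  have h1 : ((1 : ℝ) / 2) ^ k ≤ (1 / 2) ^ j :=
    pow_le_pow_of_le_one (by norm_num) (by norm_num) hjk
  have h2 : R * (2 - (1 / 2 : ℝ) ^ k) < ‖x‖ := hx
  show R * (2 - (1 / 2 : ℝ) ^ j) < ‖x‖
  have h3 : R * (2 - (1 / 2 : ℝ) ^ j) ≤ R * (2 - (1 / 2 : ℝ) ^ k) :=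
    mul_le_mul_of_nonneg_left (by linarith) hR
  linarith

theorem dist_ge {n : ℕ} (x y : E n) : ‖x‖ - ‖y‖ ≤ dist x y := by
  rw [dist_eq_norm]; exact norm_sub_norm_le x y

theorem DD_dist {n : ℕ} (R : ℝ) (hR : 1 ≤ R) (i : ℕ) (x y : E n) (hx : x ∈ DD n R (i + 2))
    (hy : y ∉ DD n R (i + 1)) : (1 / 2 : ℝ) ^ (i + 2) ≤ dist x y := by
  have h1 : R * (2 - (1 / 2 : ℝ) ^ (i + 2)) < ‖x‖ := hx
  have h2 : ‖y‖ ≤ R * (2 - (1 / 2 : ℝ) ^ (i + 1)) := not_lt.1 hy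
  have h3 := dist_ge x y
  have h4 : (1 / 2 : ℝ) ^ (i + 1) = 2 * (1 / 2 : ℝ) ^ (i + 2) := by
    rw [pow_succ (1 / 2 : ℝ) (i + 1)]; ring
  have h5 : (0 : ℝ) < (1 / 2 : ℝ) ^ (i + 2) := by positivity
  rw [h4] at h2
  nlinarith

theorem DD_notMem {n : ℕ} (R : ℝ) (hR : 0 ≤ R) (j : ℕ) (y : E n) (hy : y ∉ DD n R j) :
    ‖y‖ ≤ 2 * R := by
  have h2 : ‖y‖ ≤ R * (2 - (1 / 2 : ℝ) ^ j) := not_lt.1 hy
  have h5 : (0 : ℝ) < (1 / 2 : ℝ) ^ j := by positivity
  nlinarith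

theorem DD_zero {n : ℕ} (R : ℝ) (x : E n) (hx : x ∈ DD n R 0) : R < ‖x‖ := by
  have h1 : R * (2 - (1 / 2 : ℝ) ^ 0) < ‖x‖ := hx
  norm_num at h1
  exact h1

theorem DD_zero' {n : ℕ} (R : ℝ) (x : E n) (hx : x ∉ DD n R 0) : ‖x‖ ≤ R := by
  have h1 : ‖x‖ ≤ R * (2 - (1 / 2 : ℝ) ^ 0) := not_lt.1 hx
  norm_num at h1
  exact h1

theorem DD_one {n : ℕ} (R : ℝ) (x : E n) (hx : x ∈ DD n R 1) : R * (3 / 2) < ‖x‖ := by
  have h1 : R * (2 - (1 / 2 : ℝ) ^ 1) < ‖x‖ := hx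
  norm_num at h1
  exact h1

theorem BS_of_inter {n : ℕ} (μ : Measure (E n)) (R : ℝ) (hR : 0 < R)
    (h : μ (⋂ j, DD n R j) = 0) : BS μ := by
  refine ⟨2 * R, measure_mono_null ?_ h⟩
  intro x hx
  rw [mem_iInter]
  intro j
  have h1 : 2 * R < ‖x‖ := by
    rw [mem_compl_iff, mem_closedBall_zero_iff, not_le] at hx
    exact hx
  show R * (2 - (1 / 2 : ℝ) ^ j) < ‖x‖
  have h5 : (0 : ℝ) < (1 / 2 : ℝ) ^ j := by positivity
  nlinarith

theorem tail_tendsto {n : ℕ} (μ : Measure (E n)) [IsFiniteMeasure μ] :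
    Tendsto (fun N : ℕ => (μ {x : E n | (N : ℝ) / 2 < ‖x‖}).toReal) atTop (𝓝 0) := by
  have h := tendsto_measure_iInter_atTop (μ := μ) (s := fun N : ℕ => {x : E n | (N : ℝ) / 2 < ‖x‖})
    (fun N => (measurableSet_lt measurable_const measurable_norm).nullMeasurableSet)
    (by
      intro i j hij x hx
      have h1 : (j : ℝ) / 2 < ‖x‖ := hx
      show (i : ℝ) / 2 < ‖x‖
      have : (i : ℝ) ≤ j := by exact_mod_cast hij
      linarith) ⟨0, measure_ne_top _ _⟩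
  have h0 : (⋂ N : ℕ, {x : E n | (N : ℝ) / 2 < ‖x‖}) = ∅ := by
    rw [eq_empty_iff_forall_notMem]
    intro x hx
    rw [mem_iInter] at hx
    obtain ⟨N, hN⟩ := exists_nat_gt (2 * ‖x‖)
    have h1 : (N : ℝ) / 2 < ‖x‖ := hx N
    linarith
  rw [h0, measure_empty] at h
  exact (ENNReal.tendsto_toReal ENNReal.zero_ne_top).comp h

theorem ev_small (A b γ : ℝ) (hγ : 0 < γ) (hb : 0 < b) :
    ∀ᶠ S : ℝ in atTop, A * S ^ (-γ) ≤ b := by
  have h := (tendsto_rpow_neg_atTop hγ).const_mul A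
  rw [mul_zero] at h
  exact (h.eventually (gt_mem_nhds hb)).mono fun _ h => le_of_lt h

theorem ev_big (A b γ : ℝ) (hγ : 1 < γ) (hb : 0 < b) :
    ∀ᶠ S : ℝ in atTop, A ≤ b * S ^ (γ - 1) := by
  have h := (tendsto_rpow_atTop (sub_pos.2 hγ)).const_mul_atTop hb
  exact h.eventually_ge_atTop A

theorem U_le {n : ℕ} (p : ℝ) (σ : Measure (E n)) [IsProbabilityMeasure σ] (x : E n) (b : ℝ)
    (hi : Integrable (fun y => kr p x y) σ) (h : ∀ᵐ y ∂σ, kr p x y ≤ b) : U p σ x ≤ b := by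
  unfold U
  calc ∫ y, kr p x y ∂σ ≤ ∫ _, b ∂σ := integral_mono_ae hi (integrable_const b) h
    _ = b := by simp

theorem pow_ge (i : ℕ) : i + 2 ≤ 2 * 2 ^ i := by
  induction i with
  | zero => norm_num
  | succ k ih => rw [pow_succ]; omega

theorem inf_pos (h1 : S_iter) (h2 : S_gain) (h4 : S_cls) (h5 : S_int) (n : ℕ) (p q : ℝ)
    (hp : 0 < p) (hpq : p < q) (μ : Measure (E n)) (hμ : IsProbabilityMeasure μ) (hB : BP q μ)
    (hL : LowV p μ 1) (C1 C2 γ : ℝ) (hO : OptC p μ 1 C1 C2 γ) : BS μ := by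
  have hO' := hO
  obtain ⟨hC1, hC2, hγ, hO1, -⟩ := hO'
  have ev : ∀ᶠ S : ℝ in atTop, 2 ≤ S ∧
      4 * (2 * (4 : ℝ) ^ p * (2 * (1 + 0) + Real.sqrt (2 * C1 * C2))) ≤ S ∧
      8 * C1 * C2 * (2 : ℝ) ^ (p + 1) ≤ (1 / 4 : ℝ) ^ 2 * S ^ (γ - 1) ∧
      8 * C1 * C2 * S ^ (-γ) ≤ 1 / 4 ∧ 2 * C2 * S ^ (-γ) ≤ 1 ∧ 2 * C1 * C2 * S ^ (-γ) ≤ 1 := by
    filter_upwards [eventually_ge_atTop (2 : ℝ), eventually_ge_atTop
      (4 * (2 * (4 : ℝ) ^ p * (2 * (1 + 0) + Real.sqrt (2 * C1 * C2)))),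
      ev_big (8 * C1 * C2 * (2 : ℝ) ^ (p + 1)) ((1 / 4 : ℝ) ^ 2) γ hγ (by norm_num),
      ev_small (8 * C1 * C2) (1 / 4) γ (by linarith) (by norm_num),
      ev_small (2 * C2) 1 γ (by linarith) (by norm_num),
      ev_small (2 * C1 * C2) 1 γ (by linarith) (by norm_num)] with S a1 a2 a3 a4 a5 a6
    exact ⟨a1, a2, a3, a4, a5, a6⟩
  obtain ⟨S0, hS2, n1, n2, n3, n4, n5⟩ := ev.exists
  set δ : ℝ := 1 / (16 * (S0 - 1)) with hδ
  have hS1 : 0 < S0 - 1 := by linarith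
  have hδ0 : 0 < δ := by positivity
  have hδ8 : 4 * δ ≤ 1 / 2 := by
    rw [hδ, mul_one_div, div_le_div_iff₀ (by positivity) (by norm_num)]
    nlinarith
  -- choice of the radius
  have evN : ∀ᶠ N : ℕ in atTop, (1 : ℝ) ≤ N ∧ ((N : ℝ) / 2) ^ (-p) ≤ 1 / 2 ∧
      (μ {x : E n | (N : ℝ) / 2 < ‖x‖}).toReal ≤ 1 / 2 ∧
      C1 * (μ {x : E n | (N : ℝ) / 2 < ‖x‖}).toReal < δ := by
    have t1 := tail_tendsto μ
    have t2 := t1.const_mul C1
    rw [mul_zero] at t2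
    have t3 : Tendsto (fun N : ℕ => ((N : ℝ) / 2) ^ (-p)) atTop (𝓝 0) :=
      (tendsto_rpow_neg_atTop hp).comp
        (tendsto_natCast_atTop_atTop.atTop_div_const (by norm_num))
    filter_upwards [eventually_ge_atTop 1, t3.eventually (gt_mem_nhds (show (0 : ℝ) < 1 / 2 by norm_num)),
      t1.eventually (gt_mem_nhds (show (0 : ℝ) < 1 / 2 by norm_num)),
      t2.eventually (gt_mem_nhds hδ0)] with N a1 a2 a3 a4
    exact ⟨by exact_mod_cast a1, a2.le, a3.le, a4⟩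
  obtain ⟨N, hN1, hNp, hμ1, hμ2⟩ := evN.exists
  set R : ℝ := (N : ℝ) with hR
  have hR0 : 0 < R := by linarith
  have hm : MeasurableSet {x : E n | R / 2 < ‖x‖} :=
    measurableSet_lt measurable_const measurable_norm
  -- integrability
  have hint : ∀ σ ∈ Cls μ, ∀ x, Integrable (fun y => kr p x y) σ := by
    intro σ hσ x
    have hpr : IsProbabilityMeasure σ := hσ.1
    have hb := (h4 n q μ inferInstance).2.1 hB σ hσ
    exact (h5 n p q hp.le hpq σ σ inferInstance inferInstance hb hσ.2.2 hσ.2.2).2.1 x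
  -- lower bound on `D 0`
  have hLB : LB p μ (DD n R 0) S0 := by
    obtain ⟨σ, hσ, hσ0, hσE⟩ := hO1 _ hm hμ1 δ hμ2
    have hpr : IsProbabilityMeasure σ := hσ.1
    have hU : ∀ x ∈ DD n R 0, U p σ x ≤ 1 - 1 / 2 := by
      intro x hx
      have hx' := DD_zero R x hx
      refine U_le p σ x _ (hint σ hσ x) ?_
      have hae : ∀ᵐ y ∂σ, y ∉ {x : E n | R / 2 < ‖x‖} := measure_eq_zero_iff_ae_notMem.1 hσ0
      filter_upwards [hae] with y hy
      have hy' : ‖y‖ ≤ R / 2 := not_lt.1 hy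
      have hd : R / 2 ≤ dist x y := by
        have := dist_ge x y
        linarith
      refine (kr_pos_le p hp x y (R / 2) (by positivity) hd).trans ?_
      linarith
    have h6 := h2 n p q hp.le hpq μ inferInstance hB 1 hL σ hσ (DD n R 0) (DD_meas n R 0) δ
      (1 / 2) hδ0 hδ8 hσE hU
    have e : (1 : ℝ) + (1 / 2) ^ 2 / (4 * δ) = S0 := by
      rw [hδ]; field_simp; ring
    rw [e] at h6
    exact h6
  refine BS_of_inter μ R hR0 (h1 n p q hp.le hpq μ inferInstance hB 1 zero_le_one hL C1 C2 γ hO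
    (1 / 4) ((4 : ℝ) ^ p) p S0 0 1 (by norm_num) (by positivity) hp.le (by linarith) le_rfl
    (DD n R) univ (DD_meas n R) (DD_anti n R hR0.le) MeasurableSet.univ (by simp) ?_ ?_ hLB ?_
    ?_ n2 n3 n4 n5)
  · intro i x hx y hy _
    have hd := DD_dist R hN1 i x y hx hy
    refine (kr_pos_le p hp x y _ (by positivity) hd).trans (le_of_eq ?_)
    have e1 : ((1 : ℝ) / 2) ^ (i + 2) = (2 : ℝ) ^ (-((i : ℝ) + 2)) := by
      rw [Real.rpow_neg (by norm_num)]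
      have : ((i : ℝ) + 2) = ((i + 2 : ℕ) : ℝ) := by push_cast; ring
      rw [this, Real.rpow_natCast, one_div, inv_pow]
    have e2 : (4 : ℝ) ^ p = (2 : ℝ) ^ (2 * p) := by
      rw [Real.rpow_mul (by norm_num)]; norm_num
    rw [e1, e2, ← Real.rpow_mul (by norm_num), ← Real.rpow_add (by norm_num)]
    congr 1; ring
  · intro j x _ y _ _ _
    have := kr_nonneg p hp x y
    linarith
  · intro j σ hσ _ _ x hx
    have hpr : IsProbabilityMeasure σ := hσ.1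
    have hx' := DD_one R x hx
    have h7 : ∫ y in (DD n R 0)ᶜ, kr p x y ∂σ ≤ ∫ y in (DD n R 0)ᶜ, (1 / 2 : ℝ) ∂σ := by
      refine setIntegral_mono_on (hint σ hσ x).integrableOn (integrable_const _).integrableOn
        (DD_meas n R 0).compl ?_
      intro y hy
      have hy' := DD_zero' R y hy
      have hd : R / 2 ≤ dist x y := by
        have := dist_ge x y
        linarith
      exact (kr_pos_le p hp x y (R / 2) (by positivity) hd).trans hNp
    have h8 : ∫ y in (DD n R 0)ᶜ, (1 / 2 : ℝ) ∂σ ≤ 1 / 2 := by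
      rw [setIntegral_const, smul_eq_mul]
      have : σ.real (DD n R 0)ᶜ ≤ 1 := measureReal_le_one
      linarith
    linarith
  · linarith

theorem inf_zero (h1 : S_iter) (h2 : S_gain) (h3 : S_mass) (h4 : S_cls) (h5 : S_int) (n : ℕ)
    (q : ℝ) (hq : 0 < q) (μ : Measure (E n)) (hμ : IsProbabilityMeasure μ) (hB : BP q μ)
    (hL : LowV 0 μ 0) (C1 C2 γ : ℝ) (hO : OptC 0 μ 0 C1 C2 γ) : BS μ := by
  have hO' := hO
  obtain ⟨hC1, hC2, hγ, hO1, -⟩ := hO'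
  have ev : ∀ᶠ S : ℝ in atTop, 1 ≤ S ∧
      8 * C1 * C2 * (2 : ℝ) ^ ((1 : ℝ) + 1) ≤ (1 : ℝ) ^ 2 * S ^ (γ - 1) ∧
      8 * C1 * C2 * S ^ (-γ) ≤ 1 ∧ 2 * C2 * S ^ (-γ) ≤ 1 ∧ 2 * C1 * C2 * S ^ (-γ) ≤ 1 := by
    filter_upwards [eventually_ge_atTop (1 : ℝ),
      ev_big (8 * C1 * C2 * (2 : ℝ) ^ ((1 : ℝ) + 1)) ((1 : ℝ) ^ 2) γ hγ (by norm_num),
      ev_small (8 * C1 * C2) 1 γ (by linarith) (by norm_num),
      ev_small (2 * C2) 1 γ (by linarith) (by norm_num),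
      ev_small (2 * C1 * C2) 1 γ (by linarith) (by norm_num)] with S a1 a3 a4 a5 a6
    exact ⟨a1, a3, a4, a5, a6⟩
  set c : ℝ := 32 * Real.log 8 + 16 * Real.sqrt (2 * C1 * C2) with hc
  have hlog8 : 0 ≤ Real.log 8 := Real.log_nonneg (by norm_num)
  have hc0 : 0 ≤ c := by positivity
  have tlog : Tendsto (fun N : ℕ => Real.log ((N : ℝ) / 2)) atTop atTop :=
    Real.tendsto_log_atTop.comp (tendsto_natCast_atTop_atTop.atTop_div_const (by norm_num))
  have tS : Tendsto (fun N : ℕ => Real.log ((N : ℝ) / 2) ^ 2 / 4) atTop atTop := by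
    refine Tendsto.atTop_div_const (by norm_num) ?_
    exact (tendsto_pow_atTop (by norm_num)).comp tlog
  have evN : ∀ᶠ N : ℕ in atTop, (1 : ℝ) ≤ N ∧ 50 + c ≤ Real.log ((N : ℝ) / 2) ∧
      (1 ≤ Real.log ((N : ℝ) / 2) ^ 2 / 4 ∧
      8 * C1 * C2 * (2 : ℝ) ^ ((1 : ℝ) + 1) ≤ (1 : ℝ) ^ 2 * (Real.log ((N : ℝ) / 2) ^ 2 / 4) ^ (γ - 1) ∧
      8 * C1 * C2 * (Real.log ((N : ℝ) / 2) ^ 2 / 4) ^ (-γ) ≤ 1 ∧
      2 * C2 * (Real.log ((N : ℝ) / 2) ^ 2 / 4) ^ (-γ) ≤ 1 ∧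
      2 * C1 * C2 * (Real.log ((N : ℝ) / 2) ^ 2 / 4) ^ (-γ) ≤ 1) ∧
      (μ {x : E n | (N : ℝ) / 2 < ‖x‖}).toReal ≤ 1 / 2 ∧
      C1 * (μ {x : E n | (N : ℝ) / 2 < ‖x‖}).toReal < 1 := by
    have t1 := tail_tendsto μ
    have t2 := t1.const_mul C1
    rw [mul_zero] at t2
    filter_upwards [eventually_ge_atTop 1, tlog.eventually_ge_atTop (50 + c), tS.eventually ev,
      t1.eventually (gt_mem_nhds (show (0 : ℝ) < 1 / 2 by norm_num)),
      t2.eventually (gt_mem_nhds (show (0 : ℝ) < 1 by norm_num))] with N a1 a2 a3 a4 a5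
    exact ⟨by exact_mod_cast a1, a2, a3, a4.le, a5⟩
  obtain ⟨N, hN1, ht, ⟨s1, n2, n3, n4, n5⟩, hμ1, hμ2⟩ := evN.exists
  set R : ℝ := (N : ℝ) with hR
  set t : ℝ := Real.log (R / 2) with htdef
  set S0 : ℝ := t ^ 2 / 4 with hS0
  have hR0 : 0 < R := by linarith
  set L : ℝ := Real.log (4 * R) with hLdef
  have hLt : L = t + Real.log 8 := by
    rw [hLdef, htdef, ← Real.log_mul (by positivity) (by norm_num)]
    congr 1; ring
  have hL0 : 0 ≤ L := by rw [hLt]; linarith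
  have htc : c + 17 + 32 * t ≤ t ^ 2 := by nlinarith
  have hsq : 0 ≤ Real.sqrt (2 * C1 * C2) := Real.sqrt_nonneg _
  have hn1 : 2 * 2 * (2 * (0 + L) + Real.sqrt (2 * C1 * C2)) ≤ 1 * S0 := by
    rw [hLt, hS0]; rw [hc] at htc; nlinarith
  have hn6 : 4 + 8 * L < S0 := by
    rw [hLt, hS0]; rw [hc] at htc; nlinarith
  have hm : MeasurableSet {x : E n | R / 2 < ‖x‖} :=
    measurableSet_lt measurable_const measurable_norm
  have hint : ∀ σ ∈ Cls μ, ∀ x, Integrable (fun y => kr 0 x y) σ := by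
    intro σ hσ x
    have hpr : IsProbabilityMeasure σ := hσ.1
    have hb := (h4 n q μ inferInstance).2.1 hB σ hσ
    exact (h5 n 0 q le_rfl hq σ σ inferInstance inferInstance hb hσ.2.2 hσ.2.2).2.1 x
  have hLB : LB 0 μ (DD n R 0) S0 := by
    obtain ⟨σ, hσ, hσ0, hσE⟩ := hO1 _ hm hμ1 1 hμ2
    have hpr : IsProbabilityMeasure σ := hσ.1
    have hU : ∀ x ∈ DD n R 0, U 0 σ x ≤ 0 - t := by
      intro x hx
      have hx' := DD_zero R x hx
      refine U_le 0 σ x _ (hint σ hσ x) ?_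
      have hae : ∀ᵐ y ∂σ, y ∉ {x : E n | R / 2 < ‖x‖} := measure_eq_zero_iff_ae_notMem.1 hσ0
      filter_upwards [hae] with y hy
      have hy' : ‖y‖ ≤ R / 2 := not_lt.1 hy
      have hd : R / 2 ≤ dist x y := by
        have := dist_ge x y
        linarith
      have := kr_zero_le x y (R / 2) (by positivity) hd
      linarith
    have h6 := h2 n 0 q le_rfl hq μ inferInstance hB 0 hL σ hσ (DD n R 0) (DD_meas n R 0) 1
      t one_pos (by linarith) hσE hU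
    have e : (0 : ℝ) + t ^ 2 / (4 * 1) = S0 := by rw [hS0]; ring
    rw [e] at h6
    exact h6
  have hK2 : ∀ (j : ℕ) (x y : E n), x ∉ DD n R j → y ∉ DD n R j → -L ≤ kr 0 x y := by
    intro j x y hx hy
    have hx' := DD_notMem R hR0.le j x hx
    have hy' := DD_notMem R hR0.le j y hy
    have hd : dist x y ≤ 4 * R := by
      rw [dist_eq_norm]
      have := norm_sub_le x y
      linarith
    unfold kr
    rw [if_pos rfl]
    rcases eq_or_lt_of_le (dist_nonneg (x := x) (y := y)) with h | h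
    · rw [← h, Real.log_zero]; linarith
    · have := Real.log_le_log h hd
      linarith
  refine BS_of_inter μ R hR0 (h1 n 0 q le_rfl hq μ inferInstance hB 0 le_rfl hL C1 C2 γ hO
    1 2 1 S0 L 1 (by norm_num) (by norm_num) (by norm_num) s1 hL0
    (DD n R) univ (DD_meas n R) (DD_anti n R hR0.le) MeasurableSet.univ (by simp) ?_
    (fun j x _ y _ hx hy => hK2 j x y hx hy) hLB ?_ hn1 n2 n3 n4 n5)
  · intro i x hx y hy _
    have hd := DD_dist R hN1 i x y hx hy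
    refine (kr_zero_le x y _ (by positivity) hd).trans ?_
    have e1 : - Real.log (((1 : ℝ) / 2) ^ (i + 2)) = ((i : ℝ) + 2) * Real.log 2 := by
      rw [Real.log_pow, one_div, Real.log_inv]; push_cast; ring
    rw [e1, one_mul, Real.rpow_natCast]
    have h8 : Real.log 2 ≤ 1 := by
      have := Real.log_two_lt_d9
      linarith
    have h9 : (i : ℝ) + 2 ≤ 2 * 2 ^ i := by exact_mod_cast pow_ge i
    have h10 : (0 : ℝ) ≤ (i : ℝ) + 2 := by positivity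
    nlinarith
  · intro j σ hσ hσj hσE x hx
    have hpr : IsProbabilityMeasure σ := hσ.1
    have hx' := DD_one R x hx
    have hmass := h3 n 0 q le_rfl hq μ inferInstance hB 0 le_rfl hL σ hσ (DD n R 0)
      (DD n R j)ᶜ (DD_meas n R 0) (DD_meas n R j).compl 1 S0 L zero_le_one (by linarith) hL0 hσE
      hLB (by rw [compl_compl]; exact hσj) (fun x hx y hy => hK2 j x y hx hy)
    have hm1 : (σ (DD n R 0)).toReal ≤ 1 := by
      have : σ.real (DD n R 0) ≤ 1 := measureReal_le_one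
      exact this
    have hm0 : 0 ≤ (σ (DD n R 0)).toReal := ENNReal.toReal_nonneg
    have hhalf : (σ (DD n R 0)).toReal ≤ 1 / 2 := by
      by_contra hcon
      push Not at hcon
      have a1 : 1 / 4 * S0 ≤ (σ (DD n R 0)).toReal ^ 2 * S0 :=
        mul_le_mul_of_nonneg_right (by nlinarith) (by linarith)
      have a2 : 2 * (σ (DD n R 0)).toReal * (0 + L) ≤ 2 * L := by nlinarith
      linarith
    have hcompl : σ.real (DD n R 0)ᶜ = 1 - σ.real (DD n R 0) :=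
      probReal_compl_eq_one_sub (DD_meas n R 0)
    have h7 : ∫ y in (DD n R 0)ᶜ, kr 0 x y ∂σ ≤ ∫ y in (DD n R 0)ᶜ, (-t) ∂σ := by
      refine setIntegral_mono_on (hint σ hσ x).integrableOn (integrable_const _).integrableOn
        (DD_meas n R 0).compl ?_
      intro y hy
      have hy' := DD_zero' R y hy
      have hd : R / 2 ≤ dist x y := by
        have := dist_ge x y
        linarith
      exact kr_zero_le x y (R / 2) (by positivity) hd
    have h8 : ∫ y in (DD n R 0)ᶜ, (-t) ∂σ ≤ 0 - 2 * 1 := by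
      rw [setIntegral_const, smul_eq_mul, hcompl]
      have h9 : σ.real (DD n R 0) ≤ 1 / 2 := hhalf
      nlinarith
    linarith

/-- RC-INF -/
theorem inf_proof (h1 : S_iter) (h2 : S_gain) (h3 : S_mass) (h4 : S_cls) (h5 : S_int) :
    S_inf := by
  intro n p q hp hpq μ hμ hB hL C1 C2 γ hO
  rcases eq_or_lt_of_le hp with h | h
  · subst h
    have e : v0 0 = 0 := by unfold v0; rw [if_pos rfl]
    rw [e] at hL hO
    exact inf_zero h1 h2 h3 h4 h5 n q hpq μ hμ hB hL C1 C2 γ hO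
  · have e : v0 p = 1 := by unfold v0; rw [if_neg h.ne']
    rw [e] at hL hO
    exact inf_pos h1 h2 h4 h5 n p q h hpq μ hμ hB hL C1 C2 γ hO

end Pool.Agent.R452.RCINF
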